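import Mathlib

/-!
# Multiplicativity and the twisted Euler product from the Hecke relations
-/

set_option autoImplicit false

open Complex

namespace Pool.Agent.Y96.DMG

theorem pow_mul_of_hecke (a : ℕ → ℂ) (h1 : a 1 = 1)
    (hh : ∀ p n, p.Prime → p ≠ 5 → 0 < n → a p * a n = a (p * n) + if p ∣ n then a (n / p) else 0)
    {p : ℕ} (hp : p.Prime) (hp5 : p ≠ 5) {n : ℕ} (hn : 0 < n) (hpn : ¬ p ∣ n) (k : ℕ) :
    a (p ^ k * n) = a (p ^ k) * a n ∧ a (p ^ (k + 1) * n) = a (p ^ (k + 1)) * a n := by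
  induction k with
  | zero =>
    refine ⟨by simp [h1], ?_⟩
    have h := hh p n hp hp5 hn
    rw [if_neg hpn, add_zero] at h
    simp only [zero_add, pow_one]
    exact h.symm
  | succ k ih =>
    refine ⟨ih.2, ?_⟩
    have key : ∀ m : ℕ, 0 < m → a (p ^ (k + 1 + 1) * m) =
        a p * a (p ^ (k + 1) * m) - a (p ^ k * m) := by
      intro m hm
      have h := hh p (p ^ (k + 1) * m) hp hp5 (by have := hp.pos; positivity)
      have h2 : p ∣ p ^ (k + 1) * m := Dvd.dvd.mul_right (dvd_pow_self p (by omega)) m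
      have h3 : p ^ (k + 1) * m / p = p ^ k * m := by
        rw [pow_succ, mul_assoc, mul_comm p m, ← mul_assoc, Nat.mul_div_cancel _ hp.pos]
      have h4 : p * (p ^ (k + 1) * m) = p ^ (k + 1 + 1) * m := by ring
      rw [if_pos h2, h3, h4] at h
      rw [h]
      ring
    have e1 := key n hn
    have e2 := key 1 one_pos
    simp only [mul_one] at e2
    rw [e1, e2, ih.1, ih.2]
    ring

theorem mult_of_hecke (a : ℕ → ℂ) (h1 : a 1 = 1) (h0 : a 0 = 0) (h5 : ∀ n, 5 ∣ n → a n = 0)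
    (hh : ∀ p n, p.Prime → p ≠ 5 → 0 < n → a p * a n = a (p * n) + if p ∣ n then a (n / p) else 0) :
    ∀ m n, Nat.Coprime m n → a (m * n) = a m * a n := by
  intro m
  induction m using Nat.recOnPosPrimePosCoprime with
  | prime_pow p k hp hk =>
    intro n hmn
    rcases Nat.eq_zero_or_pos n with rfl | hn
    · simp [h0]
    by_cases hp5 : p = 5
    · subst hp5
      have e1 : (5 : ℕ) ∣ 5 ^ k := dvd_pow_self 5 (by omega)
      rw [h5 _ e1, h5 _ (Dvd.dvd.mul_right e1 n), zero_mul]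
    · have hpn : ¬ p ∣ n := by
        intro h
        have h2 : p ∣ Nat.gcd (p ^ k) n := Nat.dvd_gcd (dvd_pow_self p (by omega)) h
        rw [hmn] at h2
        exact hp.one_lt.ne' (Nat.dvd_one.1 h2)
      exact (pow_mul_of_hecke a h1 hh hp hp5 hn hpn k).1
  | zero =>
    intro n _
    simp [h0]
  | one =>
    intro n _
    simp [h1]
  | coprime b c _ _ hbc ihb ihc =>
    intro n hn
    have h2 : Nat.Coprime b n := Nat.Coprime.coprime_mul_right hn
    have h3 : Nat.Coprime c n := Nat.Coprime.coprime_mul_left hn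
    rw [mul_assoc, ihb (c * n) (Nat.Coprime.mul_right hbc h2), ihc n h3, ihb c hbc, mul_assoc]

theorem euler_of_hecke (a : ℕ → ℂ) (h1 : a 1 = 1) (h0 : a 0 = 0) (h5 : ∀ n, 5 ∣ n → a n = 0)
    (hh : ∀ p n, p.Prime → p ≠ 5 → 0 < n → a p * a n = a (p * n) + if p ∣ n then a (n / p) else 0)
    (hs : ∀ σ : ℝ, 1 < σ → Summable fun n : ℕ => ‖a n‖ * (n : ℝ) ^ (-σ))
    {m : ℕ} [NeZero m] (χ : DirichletCharacter ℂ m) (s : ℂ) (hs1 : 1 < s.re) :
    (∀ p : Nat.Primes, 1 - a p * χ p * (p : ℂ) ^ (-s) +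
      (if (p : ℕ) = 5 then 0 else χ p ^ 2 * (p : ℂ) ^ (-2 * s)) ≠ 0) ∧
    HasProd (fun p : Nat.Primes => (1 - a p * χ p * (p : ℂ) ^ (-s) +
      (if (p : ℕ) = 5 then 0 else χ p ^ 2 * (p : ℂ) ^ (-2 * s)))⁻¹)
      (∑' n : ℕ, a n * χ n * (n : ℂ) ^ (-s)) := by
  set f : ℕ → ℂ := fun n => a n * χ n * (n : ℂ) ^ (-s) with hf
  have hf0 : f 0 = 0 := by simp [hf, h0]
  have hf1 : f 1 = 1 := by simp [hf, h1]
  have hsum : Summable fun n => ‖f n‖ := by
    refine Summable.of_nonneg_of_le (fun _ => norm_nonneg _) (fun n => ?_) (hs s.re hs1)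
    rcases Nat.eq_zero_or_pos n with rfl | hn
    · rw [hf0, norm_zero]
      positivity
    · simp only [hf]
      rw [norm_mul, norm_mul, Complex.norm_natCast_cpow_of_pos hn, Complex.neg_re]
      have h2 : ‖χ (n : ZMod m)‖ ≤ 1 := DirichletCharacter.norm_le_one χ _
      have h3 : 0 ≤ (n : ℝ) ^ (-s.re) := by positivity
      nlinarith [mul_le_mul_of_nonneg_right (mul_le_mul_of_nonneg_left h2 (norm_nonneg (a n))) h3]
  have hmul : ∀ {k l : ℕ}, Nat.Coprime k l → f (k * l) = f k * f l := by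
    intro k l hkl
    simp only [hf]
    rw [mult_of_hecke a h1 h0 h5 hh k l hkl, Nat.cast_mul, Nat.cast_mul, map_mul,
      Complex.natCast_mul_natCast_cpow]
    ring
  have hprod := EulerProduct.eulerProduct_hasProd hf1 hmul hsum hf0
  have hloc : ∀ p : Nat.Primes, (1 - a p * χ p * (p : ℂ) ^ (-s) +
      (if (p : ℕ) = 5 then 0 else χ p ^ 2 * (p : ℂ) ^ (-2 * s))) * ∑' e : ℕ, f ((p : ℕ) ^ e) = 1 := by
    intro p
    have hp := p.2
    have hse : Summable fun e : ℕ => f ((p : ℕ) ^ e) := by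
      have h2 : Summable fun n => f n := hsum.of_norm
      exact h2.comp_injective (Nat.pow_right_injective hp.two_le)
    set x : ℂ := χ (p : ℕ) * (p : ℂ) ^ (-s) with hxdef
    have hc : ∀ e : ℕ, f ((p : ℕ) ^ e) = a ((p : ℕ) ^ e) * x ^ e := by
      intro e
      simp only [hf]
      rw [Nat.cast_pow, map_pow, Nat.cast_pow, ← Complex.natCast_cpow_natCast_mul,
        Complex.cpow_nat_mul, hxdef, mul_pow]
      ring
    have hx2 : χ (p : ℕ) ^ 2 * (p : ℂ) ^ (-2 * s) = x ^ 2 := by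
      rw [hxdef, mul_pow]
      congr 1
      have h2 : (-2 * s : ℂ) = ((2 : ℕ) : ℂ) * (-s) := by push_cast; ring
      rw [h2, Complex.cpow_nat_mul]
    by_cases hp5 : (p : ℕ) = 5
    · have h2 : ∑' e : ℕ, f ((p : ℕ) ^ e) = f ((p : ℕ) ^ 0) := by
        refine tsum_eq_single 0 fun e he => ?_
        rw [hc, hp5, h5 _ (dvd_pow_self 5 he), zero_mul]
      rw [h2, if_pos hp5, pow_zero, hf1, mul_one, add_zero, h5 p (by rw [hp5])]
      ring
    · have hrec : ∀ e : ℕ, f ((p : ℕ) ^ (e + 2)) =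
          a p * x * f ((p : ℕ) ^ (e + 1)) - x ^ 2 * f ((p : ℕ) ^ e) := by
        intro e
        have h := hh p ((p : ℕ) ^ (e + 1)) hp hp5 (by have := hp.pos; positivity)
        have h3 : (p : ℕ) ^ (e + 1) / p = (p : ℕ) ^ e := by
          rw [pow_succ, Nat.mul_div_cancel _ hp.pos]
        have h4 : (p : ℕ) * (p : ℕ) ^ (e + 1) = (p : ℕ) ^ (e + 2) := by ring
        rw [if_pos (dvd_pow_self _ (by omega)), h3, h4] at h
        rw [hc, hc, hc, eq_sub_of_add_eq h.symm]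
        ring
      have hs1' := hse.tsum_eq_zero_add
      have hse1 : Summable fun e : ℕ => f ((p : ℕ) ^ (e + 1)) :=
        (summable_nat_add_iff 1).2 hse
      have hs2' := hse1.tsum_eq_zero_add
      have h6 : ∑' e : ℕ, f ((p : ℕ) ^ (e + 1 + 1)) =
          a p * x * ∑' e : ℕ, f ((p : ℕ) ^ (e + 1)) - x ^ 2 * ∑' e : ℕ, f ((p : ℕ) ^ e) := by
        rw [← tsum_mul_left, ← tsum_mul_left, ← (hse1.mul_left _).tsum_sub (hse.mul_left _)]
        exact tsum_congr fun e => hrec e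
      rw [h6] at hs2'
      rw [pow_zero, hf1] at hs1'
      rw [zero_add, hc 1, pow_one, pow_one] at hs2'
      rw [if_neg hp5, hx2, mul_assoc (a p), ← hxdef]
      rw [hs2'] at hs1'
      set S := ∑' e : ℕ, f ((p : ℕ) ^ e)
      set S1 := ∑' e : ℕ, f ((p : ℕ) ^ (e + 1))
      have h7 : S = 1 + S1 := by rw [hs1', ← hs2']
      have h8 : S1 = S - 1 := by rw [h7]; ring
      rw [h8] at hs1'
      linear_combination hs1'
  refine ⟨fun p hz => ?_, ?_⟩
  · have h2 := hloc p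
    rw [hz, zero_mul] at h2
    exact zero_ne_one h2
  · have h2 : (fun p : Nat.Primes => (1 - a p * χ p * (p : ℂ) ^ (-s) +
        (if (p : ℕ) = 5 then 0 else χ p ^ 2 * (p : ℂ) ^ (-2 * s)))⁻¹) =
        fun p : Nat.Primes => ∑' e : ℕ, f ((p : ℕ) ^ e) :=
      funext fun p => (eq_inv_of_mul_eq_one_right (hloc p)).symm
    rw [h2]
    exact hprod

end Pool.Agent.Y96.DMG
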